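import Mathlib
import Pool.Agent.R670.PolyA
import Pool.Agent.R670.RatB

/-!
# The generating function of fixed polyominoes is not rational

Write `t n` for the number of fixed `n`-ominoes.  Two fixed `n`-ominoes can be joined, in at least
`√n` ways, through one extra central cell which can be recovered from the result; this gives
`√n * t n ^ 2 ≤ 2 * t (2 * n + 1)`, which no rational generating function can satisfy.
-/

set_option autoImplicit false

namespace Pool.Agent.Results.MP_66fa61_co.NotRational

/-- The cell `[a,a+1] × [b,b+1]` is represented by its lower left corner `(a,b)`. -/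
abbrev Cell : Type := ℤ × ℤ

/-- The cells `a` and `b` share an edge. -/
def Adj (a b : Cell) : Prop :=
  (a.1 = b.1 ∧ (a.2 = b.2 + 1 ∨ b.2 = a.2 + 1)) ∨ (a.2 = b.2 ∧ (a.1 = b.1 + 1 ∨ b.1 = a.1 + 1))

/-- Any two cells of `S` are joined by a path of edge-adjacent cells inside `S`. -/
def Connected (S : Finset Cell) : Prop :=
  ∀ a ∈ S, ∀ b ∈ S, Relation.ReflTransGen (fun x y => x ∈ S ∧ y ∈ S ∧ Adj x y) a b

/-- An `n`-omino: a connected set of `n` cells. -/
def IsOmino (n : ℕ) (S : Finset Cell) : Prop := S.card = n ∧ Connected S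

/-- Two `n`-ominoes are identified when they are translates of one another. -/
def translates (n : ℕ) : Setoid {S : Finset Cell // IsOmino n S} where
  r S S' := ∃ v : Cell, (S' : Finset Cell) = (S : Finset Cell).image fun p => p + v
  iseqv := (Pool.Agent.R670.Poly.setoid n).iseqv

/-- The number `t n` of fixed `n`-ominoes. -/
noncomputable def t (n : ℕ) : ℕ := Nat.card (Quotient (translates n))

/-- The generating function `T(z) = ∑_{n ≥ 1} t(n) z^n`. -/
noncomputable def T : PowerSeries ℚ := PowerSeries.mk fun n => if n = 0 then 0 else (t n : ℚ)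

theorem t_eq (n : ℕ) : t n = Pool.Agent.R670.Poly.t n := rfl

/-- `T(z)` is not a rational function: there are no polynomials `P, Q` over `ℚ`, `Q ≠ 0`, with
`T = P / Q`. -/
theorem result : ¬ ∃ P Q : Polynomial ℚ, Q ≠ 0 ∧ (Q : PowerSeries ℚ) * T = (P : PowerSeries ℚ) := by
  rintro ⟨P, Q, hQ, h⟩
  refine Pool.Agent.R670.Rat.not_rational Pool.Agent.R670.Poly.t Pool.Agent.R670.Poly.t_one
    (fun n s hn hs => Pool.Agent.R670.Poly.ineq hn hs)
    ⟨P.map (algebraMap ℚ ℂ), Q.map (algebraMap ℚ ℂ), ?_, ?_⟩
  · rwa [Ne, Polynomial.map_eq_zero]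
  · have h1 := congrArg (PowerSeries.map (algebraMap ℚ ℂ)) h
    rw [map_mul] at h1
    rw [Polynomial.polynomial_map_coe, Polynomial.polynomial_map_coe, ← h1]
    congr 1
    ext n
    simp only [Pool.Agent.R670.Rat.gf, T, PowerSeries.coeff_mk, PowerSeries.coeff_map]
    split_ifs <;> simp [t_eq]

end Pool.Agent.Results.MP_66fa61_co.NotRational
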